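import Pool.Agent.helper34.MO.SpecD

/-! # Row mo:CB3 (MP_0631c5_co) -/

set_option autoImplicit false

open Complex Finset

namespace Pool.Agent.MO

/-- The induction hypothesis for the left branch, the empty one included. -/
theorem CB3_left (l : Tr) (ma m : ℕ)
    (ih : l ≠ .e → hsum (fun m => ((m : ℝ) - 2) * gg m - 3 * gg 13) l + gg 12 * lowc l ma m
      + (if 13 ≤ ma then gg ma * ((l.ls : ℝ) - 0) else 0)
      + (if 13 ≤ m then gg m * ((l.rs : ℝ) - 1) else 0)
      ≤ GS l ma m + (if 13 ≤ m then gg 13 else 0)) :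
    ∃ k : ℝ, 0 ≤ k ∧ k ≤ 1 ∧
      hsum (fun m => ((m : ℝ) - 2) * gg m - 3 * gg 13) l + gg 12 * lowc l ma m
      + (if 13 ≤ ma then gg ma * (l.ls : ℝ) else 0)
      + (if 13 ≤ m then gg m * ((l.rs : ℝ) - k) else 0)
      ≤ GS l ma m + (if 13 ≤ m then k * gg 13 else 0) := by
  by_cases hl : l = .e
  · subst hl
    refine ⟨0, le_refl 0, zero_le_one, ?_⟩
    simp [hsum, lowc, Tr.ls, Tr.rs, GS]
  · refine ⟨1, zero_le_one, le_refl 1, ?_⟩
    have := ih hl
    simpa using this

theorem CB3_right (r : Tr) (m mb : ℕ)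
    (ih : r ≠ .e → hsum (fun m => ((m : ℝ) - 2) * gg m - 3 * gg 13) r + gg 12 * lowc r m mb
      + (if 13 ≤ m then gg m * ((r.ls : ℝ) - 1) else 0)
      + (if 13 ≤ mb then gg mb * ((r.rs : ℝ) - 0) else 0)
      ≤ GS r m mb + (if 13 ≤ m then gg 13 else 0)) :
    ∃ k : ℝ, 0 ≤ k ∧ k ≤ 1 ∧
      hsum (fun m => ((m : ℝ) - 2) * gg m - 3 * gg 13) r + gg 12 * lowc r m mb
      + (if 13 ≤ m then gg m * ((r.ls : ℝ) - k) else 0)
      + (if 13 ≤ mb then gg mb * (r.rs : ℝ) else 0)
      ≤ GS r m mb + (if 13 ≤ m then k * gg 13 else 0) := by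
  by_cases hr : r = .e
  · subst hr
    refine ⟨0, le_refl 0, zero_le_one, ?_⟩
    simp [hsum, lowc, Tr.ls, Tr.rs, GS]
  · refine ⟨1, zero_le_one, le_refl 1, ?_⟩
    have := ih hr
    simpa using this

/-- The counting inequality with hubs. -/
theorem CB3 (hGGM : GGM_stmt) : CB3_stmt := by
  obtain ⟨hpos, hmono, -, -⟩ := hGGM
  intro τ
  induction τ with
  | e => intro ma mb fl h; exact absurd rfl h
  | nd l r ihl ihr =>
    intro ma mb fl _
    obtain ⟨k, hk0, hk1, hL⟩ := CB3_left l ma (l.rs + r.ls) (fun hl => by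
      have := ihl ma (l.rs + r.ls) true hl
      simpa using this)
    obtain ⟨k', hk0', hk1', hR⟩ := CB3_right r (l.rs + r.ls) mb (fun hr => by
      have := ihr (l.rs + r.ls) mb false hr
      simpa using this)
    have hls : ((Tr.nd l r).ls : ℝ) = (l.ls : ℝ) + 1 := by
      simp [Tr.ls]
    have hrs : ((Tr.nd l r).rs : ℝ) = (r.rs : ℝ) + 1 := by
      simp [Tr.rs]
    have hm : (((l.rs + r.ls : ℕ)) : ℝ) = (l.rs : ℝ) + (r.ls : ℝ) := by push_cast; ring
    have hlow : (lowc (Tr.nd l r) ma mb : ℝ) = (if ma < 13 ∧ mb < 13 ∧ l.rs + r.ls < 13 then 1 else 0)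
        + (lowc l ma (l.rs + r.ls) : ℝ) + (lowc r (l.rs + r.ls) mb : ℝ) := by
      simp [lowc]
    rw [hls, hrs, hlow]
    simp only [hsum, GS]
    rw [hm]
    set m : ℕ := l.rs + r.ls with hmdef
    have p12 := hpos 12
    have p13 := hpos 13
    have pm := hpos m
    have pma := hpos ma
    have pmb := hpos mb
    have pmax := hpos (max m (max ma mb))
    have n1 : 0 ≤ gg m * (2 - k - k') := mul_nonneg pm.le (by linarith)
    have n2 : 0 ≤ gg 13 * (2 - k - k') := mul_nonneg p13.le (by linarith)
    by_cases h1 : 13 ≤ m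
    · have h1' : ¬ m < 13 := by omega
      simp only [h1, h1', if_true, and_false, if_false] at hL hR ⊢
      by_cases h2 : 13 ≤ ma
      · have e2 := hmono 13 ma h2
        by_cases h3 : 13 ≤ mb
        · have e3 := hmono 13 mb h3
          cases fl <;> simp only [h2, h3, if_true, if_false, Bool.false_eq_true] at hL hR ⊢ <;> nlinarith
        · cases fl <;> simp only [h2, h3, if_true, if_false, Bool.false_eq_true] at hL hR ⊢ <;> nlinarith
      · by_cases h3 : 13 ≤ mb
        · have e3 := hmono 13 mb h3
          cases fl <;> simp only [h2, h3, if_true, if_false, Bool.false_eq_true] at hL hR ⊢ <;> nlinarith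
        · cases fl <;> simp only [h2, h3, if_true, if_false, Bool.false_eq_true] at hL hR ⊢ <;> nlinarith
    · have h1' : m < 13 := by omega
      simp only [h1, h1', if_false, and_true] at hL hR ⊢
      by_cases h2 : 13 ≤ ma
      · have h2' : ¬ ma < 13 := by omega
        have e2 := hmono 13 ma h2
        by_cases h3 : 13 ≤ mb
        · have h3' : ¬ mb < 13 := by omega
          have e3 := hmono 13 mb h3
          cases fl <;> simp only [h2, h3, h2', h3', if_true, if_false, Bool.false_eq_true, and_false,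
            false_and] at hL hR ⊢ <;> nlinarith
        · have h3' : mb < 13 := by omega
          have e4 : max m (max ma mb) = ma := by omega
          rw [e4]
          cases fl <;> simp only [h2, h3, h2', h3', if_true, if_false, Bool.false_eq_true, and_false,
            false_and] at hL hR ⊢ <;> nlinarith
      · have h2' : ma < 13 := by omega
        by_cases h3 : 13 ≤ mb
        · have h3' : ¬ mb < 13 := by omega
          have e3 := hmono 13 mb h3
          have e4 : max m (max ma mb) = mb := by omega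
          rw [e4]
          cases fl <;> simp only [h2, h3, h2', h3', if_true, if_false, Bool.false_eq_true, and_false,
            false_and] at hL hR ⊢ <;> nlinarith
        · have h3' : mb < 13 := by omega
          have e4 := hmono (max m (max ma mb)) 12 (by omega)
          cases fl <;> simp only [h2, h3, h2', h3', if_true, if_false, Bool.false_eq_true, and_self] at hL hR ⊢ <;>
            nlinarith

end Pool.Agent.MO
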